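import Mathlib

set_option autoImplicit false

namespace Pool.Agent.Results.MP_8df7ba_co.GluedFactor

open SimpleGraph Finset
open scoped Classical

/-- The graph that arises from the disjoint union of `H₁` and `H₂` when `u` and `v` are merged:
its vertices are those of `H₁` and those of `H₂` other than `v`; the vertex `u` plays the role of
`v` in `H₂`. -/
def glue {V₁ V₂ : Type*} (H₁ : SimpleGraph V₁) (H₂ : SimpleGraph V₂) (u : V₁) (v : V₂) :
    SimpleGraph (V₁ ⊕ {y : V₂ // y ≠ v}) where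
  Adj p q :=
    match p, q with
    | .inl a, .inl b => H₁.Adj a b
    | .inr a, .inr b => H₂.Adj a.1 b.1
    | .inl a, .inr b => a = u ∧ H₂.Adj v b.1
    | .inr a, .inl b => b = u ∧ H₂.Adj v a.1
  symm := ⟨by
    rintro (a | a) (b | b) h
    · exact H₁.adj_symm h
    · exact h
    · exact h
    · exact H₂.adj_symm h⟩
  loopless := ⟨by
    rintro (a | a) h
    · exact H₁.loopless.irrefl a h
    · exact H₂.loopless.irrefl a.1 h⟩

section glueLemmas

variable {V₁ V₂ W : Type*} {H₁ : SimpleGraph V₁} {H₂ : SimpleGraph V₂} {u : V₁} {v : V₂}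
  {G : SimpleGraph W}

lemma glue_left : H₁.IsContained (glue H₁ H₂ u v) :=
  ⟨⟨⟨Sum.inl, fun h => h⟩, Sum.inl_injective⟩⟩

/-- The copy of `H₂` in the glued graph. -/
noncomputable def rightCopy (H₁ : SimpleGraph V₁) (H₂ : SimpleGraph V₂) (u : V₁) (v : V₂) :
    H₂.Copy (glue H₁ H₂ u v) :=
  ⟨⟨fun b => if h : b = v then Sum.inl u else Sum.inr ⟨b, h⟩, by
    intro a b hab
    by_cases ha : a = v
    · by_cases hb : b = v
      · subst ha; subst hb; exact absurd hab (H₂.loopless.irrefl _)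
      · subst ha
        simp only [dif_pos, dif_neg hb]
        exact ⟨rfl, hab⟩
    · by_cases hb : b = v
      · subst hb
        simp only [dif_pos, dif_neg ha]
        exact ⟨rfl, H₂.adj_symm hab⟩
      · simp only [dif_neg ha, dif_neg hb]
        exact hab⟩, by
    intro a b hab
    by_cases ha : a = v <;> by_cases hb : b = v
    · rw [ha, hb]
    · simp [ha, hb] at hab
    · simp [ha, hb] at hab
    · simpa [ha, hb] using hab⟩

lemma rightCopy_root : rightCopy H₁ H₂ u v v = Sum.inl u := by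
  show (if h : v = v then (Sum.inl u : V₁ ⊕ {y : V₂ // y ≠ v}) else Sum.inr ⟨v, h⟩) = _
  simp

lemma glue_right : H₂.IsContained (glue H₁ H₂ u v) := ⟨rightCopy H₁ H₂ u v⟩

/-- Two copies that meet only in the merged vertex give a copy of the glued graph. -/
lemma glue_of_copies (f : H₁.Copy G) (g : H₂.Copy G) (h : f u = g v)
    (hd : ∀ a b, f a = g b → b = v) : (glue H₁ H₂ u v).IsContained G := by
  refine ⟨⟨⟨Sum.elim (fun a => f a) (fun b => g b.1), ?_⟩, ?_⟩⟩
  · rintro (a | a) (b | b) hab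
    · exact f.toHom.map_rel hab
    · obtain ⟨rfl, hb⟩ := hab
      simp only [Sum.elim_inl, Sum.elim_inr]
      rw [h]
      exact g.toHom.map_rel hb
    · obtain ⟨rfl, hb⟩ := hab
      simp only [Sum.elim_inl, Sum.elim_inr]
      rw [h]
      exact G.adj_symm (g.toHom.map_rel hb)
    · exact g.toHom.map_rel hab
  · rintro (a | a) (b | b) hab
    · exact congrArg Sum.inl (f.injective hab)
    · exact absurd (hd a b.1 hab) b.2
    · exact absurd (hd b a.1 hab.symm) a.2
    · exact congrArg Sum.inr (Subtype.ext (g.injective hab))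

end glueLemmas

/-- Number of ordered adjacent pairs. -/
noncomputable def pc {W : Type*} [Fintype W] (G : SimpleGraph W) : ℕ :=
  (univ.filter fun p : W × W => G.Adj p.1 p.2).card

lemma pc_eq {W : Type*} [Fintype W] (G : SimpleGraph W) : pc G = 2 * #G.edgeFinset := by
  rw [← SimpleGraph.sum_degrees_eq_twice_card_edges]
  unfold pc
  rw [Finset.card_filter, ← Finset.univ_product_univ, Finset.sum_product]
  refine Finset.sum_congr rfl fun x _ => ?_
  rw [← Finset.card_filter, ← SimpleGraph.card_neighborFinset_eq_degree]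
  congr 1
  ext y; simp

/-- `G` with only the edges inside `K`. -/
def Gr {W : Type*} (G : SimpleGraph W) (K : Finset W) : SimpleGraph W where
  Adj x y := G.Adj x y ∧ x ∈ K ∧ y ∈ K
  symm := ⟨fun _ _ h => ⟨G.adj_symm h.1, h.2.2, h.2.1⟩⟩
  loopless := ⟨fun x h => G.loopless.irrefl x h.1⟩

lemma Gr_pc_le {V W : Type*} [Fintype V] [Fintype W] (H : SimpleGraph V) (G : SimpleGraph W)
    (K : Finset W) (hK : ∀ φ : H.Copy G, ¬ ∀ a, φ a ∈ K) :
    pc (Gr G K) ≤ 2 * extremalNumber (Fintype.card W) H + (Fintype.card V) ^ 2 := by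
  by_cases hc : Fintype.card V ≤ #K
  · have hfree : H.Free (Gr G K) := by
      rintro ⟨φ⟩
      let s : Finset V := univ.filter fun a => ∃ b, H.Adj a b
      have him : s.image (fun a => φ a) ⊆ K := by
        intro w hw
        obtain ⟨a, ha, rfl⟩ := Finset.mem_image.1 hw
        obtain ⟨b, hb⟩ := (Finset.mem_filter.1 ha).2
        exact (φ.toHom.map_rel hb).2.1
      obtain ⟨t, hst, htK, htc⟩ := Finset.exists_subsuperset_card_eq him
        (n := Fintype.card V) (Finset.card_image_le.trans (Finset.card_le_univ s)) hc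
      obtain ⟨g, hg⟩ := Finset.exists_equiv_extend_of_card_eq (α := V) htc.symm hst
        (Set.injOn_of_injective φ.injective)
      let φ' : H.Copy G := ⟨⟨fun a => (g a : W), by
        intro a b hab
        have ha : a ∈ s := Finset.mem_filter.2 ⟨mem_univ _, b, hab⟩
        have hb : b ∈ s := Finset.mem_filter.2 ⟨mem_univ _, a, H.adj_symm hab⟩
        rw [hg a ha, hg b hb]
        exact (φ.toHom.map_rel hab).1⟩, by
        intro a b hab
        exact g.injective (Subtype.ext hab)⟩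
      exact hK φ' fun a => htK (g a).2
    rw [pc_eq]
    have := card_edgeFinset_le_extremalNumber hfree
    omega
  · have h1 : pc (Gr G K) ≤ #(K ×ˢ K) := by
      refine Finset.card_le_card fun p hp => ?_
      have := (Finset.mem_filter.1 hp).2
      exact Finset.mem_product.2 ⟨this.2.1, this.2.2⟩
    rw [Finset.card_product] at h1
    have h2 : #K * #K ≤ Fintype.card V ^ 2 := by
      rw [pow_two]
      exact Nat.mul_le_mul (by omega) (by omega)
    omega

/-- Number of sets containing `T` and missing `R`. -/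
lemma count_sets {W : Type*} [Fintype W] (T R : Finset W) (hTR : Disjoint T R) (k : ℕ)
    (hk : #T + #R ≤ k) (Q : Finset W → Prop) (hQ : ∀ S, T ⊆ S → Disjoint R S → Q S) :
    2 ^ Fintype.card W ≤ 2 ^ k * #(univ.filter Q) := by
  have h1 : #((T ∪ R)ᶜ.powerset) ≤ #(univ.filter Q) := by
    refine Finset.card_le_card_of_injOn (fun S => S ∪ T) ?_ ?_
    · intro S hS
      have hS' := Finset.mem_powerset.1 hS
      simp only [Finset.coe_filter, Finset.mem_univ, true_and, Set.mem_ofPred_eq]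
      refine hQ _ Finset.subset_union_right ?_
      rw [Finset.disjoint_union_right]
      refine ⟨?_, hTR.symm⟩
      rw [Finset.disjoint_left]
      intro x hxR hxS
      have := hS' hxS
      rw [Finset.mem_compl, Finset.mem_union] at this
      exact this (Or.inr hxR)
    · intro S hS S' hS' h
      have hS1 := Finset.mem_powerset.1 hS
      have hS1' := Finset.mem_powerset.1 hS'
      ext x
      have hx : x ∈ S ∪ T ↔ x ∈ S' ∪ T := by rw [show S ∪ T = S' ∪ T from h]
      rw [Finset.mem_union, Finset.mem_union] at hx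
      constructor
      · intro hxS
        have := hS1 hxS
        rw [Finset.mem_compl, Finset.mem_union] at this
        rcases hx.1 (Or.inl hxS) with h' | h'
        · exact h'
        · exact absurd (Or.inl h') this
      · intro hxS
        have := hS1' hxS
        rw [Finset.mem_compl, Finset.mem_union] at this
        rcases hx.2 (Or.inl hxS) with h' | h'
        · exact h'
        · exact absurd (Or.inl h') this
  rw [Finset.card_powerset, Finset.card_compl] at h1
  have h2 : #(T ∪ R) ≤ k := (Finset.card_union_le _ _).trans hk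
  have h3 : #(T ∪ R) ≤ Fintype.card W := Finset.card_le_univ _
  calc 2 ^ Fintype.card W = 2 ^ #(T ∪ R) * 2 ^ (Fintype.card W - #(T ∪ R)) := by
        rw [← pow_add]; congr 1; omega
    _ ≤ 2 ^ k * #(univ.filter Q) :=
        Nat.mul_le_mul (Nat.pow_le_pow_right (by norm_num) h2) h1

lemma avg {V W : Type*} [Fintype V] [Fintype W] (H : SimpleGraph V) (G : SimpleGraph W) (u : V)
    (X : Finset W) (P : W → Finset W) (K : ℕ) (hcard : ∀ x ∈ X, #(P x) ≤ K)
    (hx : ∀ x ∈ X, x ∉ P x) (hit : ∀ φ : H.Copy G, φ u ∈ X → ∃ a, φ a ∈ P (φ u)) :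
    pc (Gr G X) ≤ 2 ^ (2 + 2 * K) *
      (2 * extremalNumber (Fintype.card W) H + (Fintype.card V) ^ 2) + 2 * (K * Fintype.card W) := by
  set M := 2 * extremalNumber (Fintype.card W) H + (Fintype.card V) ^ 2 with hM
  -- the bad pairs
  have hrow : #(univ.filter fun p : W × W => p.1 ∈ X ∧ p.2 ∈ P p.1) ≤ K * Fintype.card W := by
    rw [Finset.card_filter, ← Finset.univ_product_univ, Finset.sum_product]
    calc ∑ x : W, ∑ y : W, (if x ∈ X ∧ y ∈ P x then 1 else 0)
        ≤ ∑ _x : W, K := by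
          refine Finset.sum_le_sum fun x _ => ?_
          by_cases hxX : x ∈ X
          · rw [← Finset.card_filter]
            refine le_trans (Finset.card_le_card ?_) (hcard x hxX)
            intro y hy
            exact (Finset.mem_filter.1 hy).2.2
          · simp [hxX]
      _ = K * Fintype.card W := by simp [mul_comm]
  have hrow' : #(univ.filter fun p : W × W => p.2 ∈ X ∧ p.1 ∈ P p.2) ≤ K * Fintype.card W := by
    refine le_trans (Finset.card_le_card_of_injOn Prod.swap ?_ ?_) hrow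
    · intro p hp
      simp only [Finset.coe_filter, Finset.mem_univ, true_and, Set.mem_ofPred_eq] at hp ⊢
      exact hp
    · exact Set.injOn_of_injective Prod.swap_injective
  let good : Finset (W × W) := univ.filter fun p : W × W =>
    (Gr G X).Adj p.1 p.2 ∧ p.2 ∉ P p.1 ∧ p.1 ∉ P p.2
  have hsplit : pc (Gr G X) ≤ (Finset.card good) + (K * Fintype.card W + K * Fintype.card W) := by
    refine le_trans ?_ (Nat.add_le_add_left (Nat.add_le_add hrow hrow') _)
    refine le_trans ?_ (Nat.add_le_add_left (Finset.card_union_le _ _) _)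
    refine le_trans ?_ (Finset.card_union_le _ _)
    refine Finset.card_le_card fun p hp => ?_
    have hp' := (Finset.mem_filter.1 hp).2
    simp only [good, Finset.mem_union, Finset.mem_filter, Finset.mem_univ, true_and]
    by_cases h1 : p.2 ∈ P p.1
    · exact Or.inr (Or.inl ⟨hp'.2.1, h1⟩)
    · by_cases h2 : p.1 ∈ P p.2
      · exact Or.inr (Or.inr ⟨hp'.2.2, h2⟩)
      · exact Or.inl ⟨hp', h1, h2⟩
  -- the sampling sets
  let KS : Finset W → Finset W := fun S => X.filter fun x => x ∈ S ∧ Disjoint (P x) S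
  have hS : ∀ S : Finset W, pc (Gr G (KS S)) ≤ M := by
    intro S
    refine Gr_pc_le H G (KS S) fun φ hφ => ?_
    have hu := Finset.mem_filter.1 (hφ u)
    obtain ⟨a, ha⟩ := hit φ hu.1
    have ha' := Finset.mem_filter.1 (hφ a)
    exact Finset.disjoint_left.1 hu.2.2 ha ha'.2.1
  have hN : ∀ p ∈ good, 2 ^ Fintype.card W ≤ 2 ^ (2 + 2 * K) *
      #(univ.filter fun S : Finset W => (Gr G (KS S)).Adj p.1 p.2) := by
    intro p hp
    have hp' := (Finset.mem_filter.1 hp).2
    obtain ⟨⟨hadj, h1X, h2X⟩, h21, h12⟩ := hp'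
    refine count_sets {p.1, p.2} (P p.1 ∪ P p.2) ?_ (2 + 2 * K) ?_ _ ?_
    · rw [Finset.disjoint_left]
      intro x hxT hxR
      rw [Finset.mem_insert, Finset.mem_singleton] at hxT
      rw [Finset.mem_union] at hxR
      rcases hxT with rfl | rfl
      · rcases hxR with h | h
        · exact hx _ h1X h
        · exact h12 h
      · rcases hxR with h | h
        · exact h21 h
        · exact hx _ h2X h
    · have e1 : #({p.1, p.2} : Finset W) ≤ 2 := Finset.card_le_two
      have e2 := Finset.card_union_le (P p.1) (P p.2)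
      have e3 := hcard _ h1X
      have e4 := hcard _ h2X
      omega
    · intro S hTS hRS
      rw [Finset.disjoint_union_left] at hRS
      refine ⟨hadj, Finset.mem_filter.2 ⟨h1X, hTS (by simp), hRS.1⟩,
        Finset.mem_filter.2 ⟨h2X, hTS (by simp), hRS.2⟩⟩
  have hgood : (Finset.card good) ≤ 2 ^ (2 + 2 * K) * M := by
    have hswap : ∑ p : W × W, #(univ.filter fun S : Finset W => (Gr G (KS S)).Adj p.1 p.2)
        = ∑ S : Finset W, pc (Gr G (KS S)) := by
      unfold pc
      simp_rw [Finset.card_filter]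
      exact Finset.sum_comm
    have h1 : (Finset.card good) * 2 ^ Fintype.card W ≤ 2 ^ (2 + 2 * K) * (2 ^ Fintype.card W * M) := by
      calc (Finset.card good) * 2 ^ Fintype.card W = ∑ _p ∈ good, 2 ^ Fintype.card W := by simp
        _ ≤ ∑ p ∈ good, 2 ^ (2 + 2 * K) *
            #(univ.filter fun S : Finset W => (Gr G (KS S)).Adj p.1 p.2) :=
            Finset.sum_le_sum hN
        _ ≤ ∑ p : W × W, 2 ^ (2 + 2 * K) *
            #(univ.filter fun S : Finset W => (Gr G (KS S)).Adj p.1 p.2) :=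
            Finset.sum_le_sum_of_subset (Finset.subset_univ _)
        _ = 2 ^ (2 + 2 * K) * ∑ S : Finset W, pc (Gr G (KS S)) := by
            rw [← Finset.mul_sum, hswap]
        _ ≤ 2 ^ (2 + 2 * K) * ∑ _S : Finset W, M :=
            Nat.mul_le_mul_left _ (Finset.sum_le_sum fun S _ => hS S)
        _ = 2 ^ (2 + 2 * K) * (2 ^ Fintype.card W * M) := by simp
    have h2 : (Finset.card good) * 2 ^ Fintype.card W ≤ (2 ^ (2 + 2 * K) * M) * 2 ^ Fintype.card W := by
      calc (Finset.card good) * 2 ^ Fintype.card W ≤ 2 ^ (2 + 2 * K) * (2 ^ Fintype.card W * M) := h1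
        _ = (2 ^ (2 + 2 * K) * M) * 2 ^ Fintype.card W := by ring
    exact Nat.le_of_mul_le_mul_right h2 (by positivity)
  omega

/-! ### Linear lower bound -/

/-- The matching `01, 23, 45, …` on `Fin n`. -/
def matchingGraph (n : ℕ) : SimpleGraph (Fin n) where
  Adj i j := i ≠ j ∧ i.val / 2 = j.val / 2
  symm := ⟨fun _ _ h => ⟨h.1.symm, h.2.symm⟩⟩
  loopless := ⟨fun _ h => h.1 rfl⟩

lemma linear_le {V : Type*} [Fintype V] (H : SimpleGraph V) (h2 : 2 ≤ #H.edgeFinset) (n : ℕ)
    (hn : 2 ≤ n) : n ≤ 3 * extremalNumber n H := by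
  have : NeZero n := ⟨by omega⟩
  by_cases hs : H.Free (starGraph (0 : Fin n))
  · have h1 := card_edgeFinset_le_extremalNumber hs
    rw [Fintype.card_fin] at h1
    have h3 : #((univ : Finset (Fin n)).erase 0) ≤ #(starGraph (0 : Fin n)).edgeFinset := by
      refine Finset.card_le_card_of_injOn (fun x => s(0, x)) ?_ ?_
      · intro x hx
        have hx' : x ≠ 0 := (Finset.mem_erase.1 hx).1
        simp only [coe_edgeFinset, SimpleGraph.mem_edgeSet, starGraph_adj]
        refine ⟨hx'.symm, ?_⟩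
        simp
      · intro x _ y _ hxy
        have : s((0 : Fin n), x) = s(0, y) := hxy
        rcases Sym2.eq_iff.1 this with ⟨_, h⟩ | ⟨h, h'⟩
        · exact h
        · rw [h', ← h]
    rw [Finset.card_erase_of_mem (Finset.mem_univ _), Finset.card_univ, Fintype.card_fin] at h3
    omega
  · -- two edges of `H` share a vertex
    obtain ⟨f⟩ := not_not.1 hs
    obtain ⟨e₁, he₁, e₂, he₂, hne⟩ := Finset.one_lt_card.1 (show 1 < #H.edgeFinset by omega)
    have key : ∃ c a b, a ≠ b ∧ H.Adj c a ∧ H.Adj c b := by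
      have aux : ∀ e ∈ H.edgeFinset, ∃ c a, e = s(c, a) ∧ H.Adj c a ∧ f c = 0 := by
        intro e he
        induction e using Sym2.ind with
        | _ x y =>
          have hadj : H.Adj x y := by simpa using he
          have := f.toHom.map_rel hadj
          rw [starGraph_adj] at this
          rcases this.2 with h | h
          · exact ⟨x, y, rfl, hadj, h⟩
          · exact ⟨y, x, Sym2.eq_swap, H.adj_symm hadj, h⟩
      obtain ⟨c, a, rfl, hca, hc⟩ := aux e₁ he₁
      obtain ⟨c', b, rfl, hcb, hc'⟩ := aux e₂ he₂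
      have hcc : c = c' := f.injective (hc.trans hc'.symm)
      subst hcc
      refine ⟨c, a, b, ?_, hca, hcb⟩
      rintro rfl
      exact hne rfl
    obtain ⟨c, a, b, hab, hca, hcb⟩ := key
    have hfree : H.Free (matchingGraph n) := by
      rintro ⟨g⟩
      have h1 : (matchingGraph n).Adj (g c) (g a) := g.toHom.map_rel hca
      have h2 : (matchingGraph n).Adj (g c) (g b) := g.toHom.map_rel hcb
      have h3 : g a ≠ g b := fun h => hab (g.injective h)
      have e1 : (g c).val ≠ (g a).val := fun h => h1.1 (Fin.ext h)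
      have e2 : (g c).val ≠ (g b).val := fun h => h2.1 (Fin.ext h)
      have e3 : (g a).val ≠ (g b).val := fun h => h3 (Fin.ext h)
      have e4 := h1.2
      have e5 := h2.2
      omega
    have h1 := card_edgeFinset_le_extremalNumber hfree
    rw [Fintype.card_fin] at h1
    have h3 : #(univ : Finset (Fin (n / 2))) ≤ #(matchingGraph n).edgeFinset := by
      refine Finset.card_le_card_of_injOn
        (fun k => s((⟨2 * k.val, by omega⟩ : Fin n), (⟨2 * k.val + 1, by omega⟩ : Fin n))) ?_ ?_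
      · intro k _
        simp only [coe_edgeFinset, SimpleGraph.mem_edgeSet]
        refine ⟨?_, ?_⟩
        · intro h
          have := congrArg Fin.val h
          simp at this
        · show (2 * k.val) / 2 = (2 * k.val + 1) / 2
          omega
      · intro k _ l _ hkl
        simp only [Sym2.eq_iff, Fin.mk.injEq] at hkl
        apply Fin.ext
        omega
    rw [Finset.card_univ, Fintype.card_fin] at h3
    omega

/-! ### The crossing bound and the reduction -/

/-- The *crossing bound* for the rooted graphs `(H₁, u)`, `(H₂, v)`: a graph on `n` vertices all of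
whose edges go between disjoint sets `X` and `Y`, with no copy of `H₁` whose `u` lies in `Y` and no
copy of `H₂` whose `v` lies in `X`, has `O(ex(n,H₁) + ex(n,H₂) + n)` edges. -/
def CrossBound {V₁ V₂ : Type*} (H₁ : SimpleGraph V₁) (H₂ : SimpleGraph V₂) (u : V₁) (v : V₂) :
    Prop :=
  ∃ c : ℕ, ∀ (n : ℕ) (Γ : SimpleGraph (Fin n)) (X Y : Finset (Fin n)), Disjoint X Y →
    (∀ x y, Γ.Adj x y → (x ∈ X ∧ y ∈ Y) ∨ (x ∈ Y ∧ y ∈ X)) →
    (∀ χ : H₁.Copy Γ, χ u ∉ Y) → (∀ φ : H₂.Copy Γ, φ v ∉ X) →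
    #Γ.edgeFinset ≤ c * (extremalNumber n H₁ + extremalNumber n H₂ + n)

/-- The edges of `G` between `A` and `B`. -/
def Bip {W : Type*} (G : SimpleGraph W) (A B : Finset W) : SimpleGraph W where
  Adj x y := G.Adj x y ∧ ((x ∈ A ∧ y ∈ B) ∨ (x ∈ B ∧ y ∈ A))
  symm := ⟨fun _ _ h => ⟨G.adj_symm h.1, h.2.elim (fun h => Or.inr ⟨h.2, h.1⟩)
    (fun h => Or.inl ⟨h.2, h.1⟩)⟩⟩
  loopless := ⟨fun x h => G.loopless.irrefl x h.1⟩

lemma Bip_le {W : Type*} (G : SimpleGraph W) (A B : Finset W) : Bip G A B ≤ G :=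
  fun _ _ h => h.1

lemma main_bound {V₁ V₂ : Type*} [Fintype V₁] [Fintype V₂] (H₁ : SimpleGraph V₁)
    (H₂ : SimpleGraph V₂) (u : V₁) (v : V₂) (hcb : CrossBound H₁ H₂ u v) :
    ∃ C : ℕ, ∀ n : ℕ, extremalNumber n (glue H₁ H₂ u v) ≤
      C * (extremalNumber n H₁ + extremalNumber n H₂ + n) + C := by
  obtain ⟨c, hc⟩ := hcb
  set K := Fintype.card V₁ + Fintype.card V₂ with hK
  set L := 2 ^ (2 + 2 * K) with hL
  refine ⟨2 * L + 2 * K + c + L * (K ^ 2), fun n => ?_⟩
  suffices key : ∀ G : SimpleGraph (Fin n), (glue H₁ H₂ u v).Free G →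
      #G.edgeFinset ≤ (2 * L + 2 * K + c + L * (K ^ 2)) *
        (extremalNumber n H₁ + extremalNumber n H₂ + n) + (2 * L + 2 * K + c + L * (K ^ 2)) by
    rw [← Fintype.card_fin n, extremalNumber_le_iff, Fintype.card_fin]
    intro G inst hfree
    have h := key G hfree
    obtain rfl : inst = fun a b => Classical.propDecidable (G.Adj a b) := Subsingleton.elim _ _
    exact h
  intro G hfree
  let A : Finset (Fin n) := univ.filter fun x => ¬ ∃ P : Finset (Fin n), x ∉ P ∧ #P ≤ K ∧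
    ∀ χ : H₁.Copy G, χ u = x → ∃ a, χ a ∈ P
  let B : Finset (Fin n) := univ.filter fun x => ¬ ∃ P : Finset (Fin n), x ∉ P ∧ #P ≤ K ∧
    ∀ φ : H₂.Copy G, φ v = x → ∃ a, φ a ∈ P
  have hA : ∀ φ : H₂.Copy G, φ v ∉ A := by
    intro φ hφ
    apply (Finset.mem_filter.1 hφ).2
    refine ⟨(univ.image fun a => φ a).erase (φ v), Finset.notMem_erase _ _, ?_, ?_⟩
    · calc _ ≤ #(univ.image fun a => φ a) := Finset.card_erase_le
        _ ≤ #(univ : Finset V₂) := Finset.card_image_le
        _ ≤ K := by rw [Finset.card_univ]; omega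
    · intro χ hχ
      by_contra hno
      push Not at hno
      apply hfree
      refine glue_of_copies χ φ hχ fun a b hab => ?_
      by_contra hb
      apply hno a
      rw [hab]
      exact Finset.mem_erase.2 ⟨fun h => hb (φ.injective h),
        Finset.mem_image.2 ⟨b, mem_univ _, rfl⟩⟩
  have hB : ∀ χ : H₁.Copy G, χ u ∉ B := by
    intro χ hχ
    apply (Finset.mem_filter.1 hχ).2
    refine ⟨(univ.image fun a => χ a).erase (χ u), Finset.notMem_erase _ _, ?_, ?_⟩
    · calc _ ≤ #(univ.image fun a => χ a) := Finset.card_erase_le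
        _ ≤ #(univ : Finset V₁) := Finset.card_image_le
        _ ≤ K := by rw [Finset.card_univ]; omega
    · intro φ hφ
      by_contra hno
      push Not at hno
      apply hfree
      refine glue_of_copies χ φ hφ.symm fun a b hab => ?_
      by_contra hb
      apply hno b
      rw [← hab]
      refine Finset.mem_erase.2 ⟨fun h => hb ?_, Finset.mem_image.2 ⟨a, mem_univ _, rfl⟩⟩
      apply φ.injective
      show φ b = φ v
      rw [← hab, h, hφ]
  have hAB : Disjoint A B := by
    rw [Finset.disjoint_left]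
    intro x hxA hxB
    apply (Finset.mem_filter.1 hxB).2
    refine ⟨∅, Finset.notMem_empty _, by simp, fun φ hφ => ?_⟩
    rw [← hφ] at hxA
    exact absurd hxA (hA φ)
  -- the part outside `A`
  have hP : ∀ x : Fin n, ∃ P : Finset (Fin n), x ∈ Aᶜ → (x ∉ P ∧ #P ≤ K ∧
      ∀ χ : H₁.Copy G, χ u = x → ∃ a, χ a ∈ P) := by
    intro x
    by_cases hx : x ∈ A
    · exact ⟨∅, fun h => absurd hx (Finset.mem_compl.1 h)⟩
    · have : ∃ P : Finset (Fin n), x ∉ P ∧ #P ≤ K ∧
          ∀ χ : H₁.Copy G, χ u = x → ∃ a, χ a ∈ P := by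
        by_contra h
        exact hx (Finset.mem_filter.2 ⟨mem_univ _, h⟩)
      obtain ⟨P, hP⟩ := this
      exact ⟨P, fun _ => hP⟩
  choose P hP using hP
  have hQ : ∀ x : Fin n, ∃ P : Finset (Fin n), x ∈ Bᶜ → (x ∉ P ∧ #P ≤ K ∧
      ∀ φ : H₂.Copy G, φ v = x → ∃ a, φ a ∈ P) := by
    intro x
    by_cases hx : x ∈ B
    · exact ⟨∅, fun h => absurd hx (Finset.mem_compl.1 h)⟩
    · have : ∃ P : Finset (Fin n), x ∉ P ∧ #P ≤ K ∧
          ∀ φ : H₂.Copy G, φ v = x → ∃ a, φ a ∈ P := by
        by_contra h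
        exact hx (Finset.mem_filter.2 ⟨mem_univ _, h⟩)
      obtain ⟨P, hP⟩ := this
      exact ⟨P, fun _ => hP⟩
  choose Q hQ using hQ
  have e1 := avg H₁ G u Aᶜ P K (fun x hx => (hP x hx).2.1) (fun x hx => (hP x hx).1)
    (fun χ hχ => (hP _ hχ).2.2 χ rfl)
  have e2 := avg H₂ G v Bᶜ Q K (fun x hx => (hQ x hx).2.1) (fun x hx => (hQ x hx).1)
    (fun χ hχ => (hQ _ hχ).2.2 χ rfl)
  have e3 := hc n (Bip G A B) A B hAB (fun x y h => h.2)
    (fun χ hχ => hB ((Copy.ofLE _ _ (Bip_le G A B)).comp χ) hχ)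
    (fun φ hφ => hA ((Copy.ofLE _ _ (Bip_le G A B)).comp φ) hφ)
  have e3' : pc (Bip G A B) ≤ 2 * (c * (extremalNumber n H₁ + extremalNumber n H₂ + n)) := by
    rw [pc_eq]; omega
  have e4 : pc G ≤ pc (Gr G Aᶜ) + pc (Gr G Bᶜ) + pc (Bip G A B) := by
    refine le_trans ?_ (Nat.add_le_add_right (Finset.card_union_le _ _) _)
    refine le_trans ?_ (Finset.card_union_le _ _)
    refine Finset.card_le_card fun p hp => ?_
    have hp' := (Finset.mem_filter.1 hp).2
    simp only [Finset.mem_union, Finset.mem_filter, Finset.mem_univ, true_and]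
    by_cases h1 : p.1 ∈ A
    · by_cases h2 : p.2 ∈ B
      · exact Or.inr ⟨hp', Or.inl ⟨h1, h2⟩⟩
      · refine Or.inl (Or.inr ⟨hp', Finset.mem_compl.2 fun h => ?_, Finset.mem_compl.2 h2⟩)
        exact Finset.disjoint_left.1 hAB h1 h
    · by_cases h2 : p.2 ∈ A
      · by_cases h3 : p.1 ∈ B
        · exact Or.inr ⟨hp', Or.inr ⟨h3, h2⟩⟩
        · refine Or.inl (Or.inr ⟨hp', Finset.mem_compl.2 h3, Finset.mem_compl.2 fun h => ?_⟩)
          exact Finset.disjoint_left.1 hAB h2 h
      · exact Or.inl (Or.inl ⟨hp', Finset.mem_compl.2 h1, Finset.mem_compl.2 h2⟩)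
  have e5 : pc G = 2 * #G.edgeFinset := by
    rw [pc_eq]
  rw [Fintype.card_fin] at e1 e2
  have k1 : Fintype.card V₁ ^ 2 ≤ K ^ 2 := Nat.pow_le_pow_left (by omega) 2
  have k2 : Fintype.card V₂ ^ 2 ≤ K ^ 2 := Nat.pow_le_pow_left (by omega) 2
  set E₁ := extremalNumber n H₁
  set E₂ := extremalNumber n H₂
  have e1' : pc (Gr G Aᶜ) ≤ L * (2 * E₁ + K ^ 2) + 2 * (K * n) :=
    e1.trans (Nat.add_le_add_right (Nat.mul_le_mul_left _ (by omega)) _)
  have e2' : pc (Gr G Bᶜ) ≤ L * (2 * E₂ + K ^ 2) + 2 * (K * n) :=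
    e2.trans (Nat.add_le_add_right (Nat.mul_le_mul_left _ (by omega)) _)
  have h5 : 2 * #G.edgeFinset ≤ L * (2 * E₁ + K ^ 2) + 2 * (K * n) +
      (L * (2 * E₂ + K ^ 2) + 2 * (K * n)) + 2 * (c * (E₁ + E₂ + n)) := by
    have := e5
    omega
  have h6 : L * (2 * E₁ + K ^ 2) + 2 * (K * n) +
      (L * (2 * E₂ + K ^ 2) + 2 * (K * n)) + 2 * (c * (E₁ + E₂ + n)) ≤
      2 * ((2 * L + 2 * K + c + L * (K ^ 2)) * (E₁ + E₂ + n) +
        (2 * L + 2 * K + c + L * (K ^ 2))) := by
    nlinarith [Nat.zero_le (L * E₁), Nat.zero_le (L * E₂), Nat.zero_le (L * n),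
      Nat.zero_le (K * E₁), Nat.zero_le (K * E₂), Nat.zero_le (K * n),
      Nat.zero_le (L * K ^ 2 * E₁), Nat.zero_le (L * K ^ 2 * E₂), Nat.zero_le (L * K ^ 2 * n),
      Nat.zero_le (c * E₁), Nat.zero_le L, Nat.zero_le K, Nat.zero_le c,
      Nat.zero_le (L * K ^ 2)]
  omega


lemma cross_walk {S W : Type*} {H : SimpleGraph S} {Γ : SimpleGraph W} {X Y : Finset W}
    (hd : Disjoint X Y) (hb : ∀ x y, Γ.Adj x y → (x ∈ X ∧ y ∈ Y) ∨ (x ∈ Y ∧ y ∈ X))
    (f : H.Copy Γ) {s t : S} (p : H.Walk s t) :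
    (f s ∈ X → (Even p.length → f t ∈ X) ∧ (¬ Even p.length → f t ∈ Y)) ∧
    (f s ∈ Y → (Even p.length → f t ∈ Y) ∧ (¬ Even p.length → f t ∈ X)) := by
  induction p with
  | nil => simp
  | @cons a b c h p ih =>
    have hadj : Γ.Adj (f a) (f b) := f.toHom.map_rel h
    rw [Walk.length_cons, Nat.even_add_one, not_not]
    refine ⟨fun ha => ?_, fun ha => ?_⟩
    · have hb' : f b ∈ Y := by
        rcases hb _ _ hadj with h | h
        · exact h.2
        · exact absurd h.1 (Finset.disjoint_left.1 hd ha)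
      exact ⟨(ih.2 hb').2, (ih.2 hb').1⟩
    · have hb' : f b ∈ X := by
        rcases hb _ _ hadj with h | h
        · exact absurd ha (Finset.disjoint_left.1 hd h.1)
        · exact h.2
      exact ⟨(ih.1 hb').2, (ih.1 hb').1⟩

/-- The criterion: a rooted graph `(S, s)`, `s` not isolated, with `ex(n,S)` of order at most
`ex(n,H₁) + ex(n,H₂) + n`, such that `S` contains a copy of `H₂` whose `v` is at even distance
(along some walk) from `s` or a copy of `H₁` whose `u` is at odd distance from `s`, and also a copy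
of `H₂` whose `v` is at odd distance from `s` or a copy of `H₁` whose `u` is at even distance. -/
def Witness {V₁ V₂ V : Type*} (H₁ : SimpleGraph V₁) (H₂ : SimpleGraph V₂) (u : V₁) (v : V₂)
    (S : SimpleGraph V) (s : V) : Prop :=
  (∃ c : ℕ, ∀ n, extremalNumber n S ≤ c * (extremalNumber n H₁ + extremalNumber n H₂ + n)) ∧
  (∃ b, S.Adj s b) ∧
  ((∃ φ : H₂.Copy S, ∃ p : S.Walk s (φ v), Even p.length) ∨
    (∃ χ : H₁.Copy S, ∃ p : S.Walk s (χ u), ¬ Even p.length)) ∧
  ((∃ φ : H₂.Copy S, ∃ p : S.Walk s (φ v), ¬ Even p.length) ∨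
    (∃ χ : H₁.Copy S, ∃ p : S.Walk s (χ u), Even p.length))

lemma crossBound_of_witness {V₁ V₂ V : Type*} {H₁ : SimpleGraph V₁} {H₂ : SimpleGraph V₂}
    {u : V₁} {v : V₂} {S : SimpleGraph V} {s : V} (hw : Witness H₁ H₂ u v S s) :
    CrossBound H₁ H₂ u v := by
  obtain ⟨⟨c, hc⟩, ⟨b, hsb⟩, hX, hY⟩ := hw
  refine ⟨c, fun n Γ X Y hd hb h1 h2 => ?_⟩
  have hfree : S.Free Γ := by
    rintro ⟨f⟩
    have hadj : Γ.Adj (f s) (f b) := f.toHom.map_rel hsb
    have hs : f s ∈ X ∨ f s ∈ Y := (hb _ _ hadj).imp (fun h => h.1) (fun h => h.1)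
    rcases hs with hs | hs
    · rcases hX with ⟨φ, p, hp⟩ | ⟨χ, p, hp⟩
      · exact h2 (f.comp φ) (((cross_walk hd hb f p).1 hs).1 hp)
      · exact h1 (f.comp χ) (((cross_walk hd hb f p).1 hs).2 hp)
    · rcases hY with ⟨φ, p, hp⟩ | ⟨χ, p, hp⟩
      · exact h2 (f.comp φ) (((cross_walk hd hb f p).2 hs).2 hp)
      · exact h1 (f.comp χ) (((cross_walk hd hb f p).2 hs).1 hp)
  have h := card_edgeFinset_le_extremalNumber hfree
  rw [Fintype.card_fin] at h
  exact h.trans (hc n)

/-- The conclusion of Q1 for `(H₁, u)`, `(H₂, v)`. -/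
def GlueTheta {V₁ V₂ : Type*} (H₁ : SimpleGraph V₁) (H₂ : SimpleGraph V₂) (u : V₁) (v : V₂) :
    Prop :=
  (fun n : ℕ => (extremalNumber n (glue H₁ H₂ u v) : ℝ)) =Θ[Filter.atTop]
    fun n : ℕ => (extremalNumber n H₁ : ℝ) + (extremalNumber n H₂ : ℝ)

/-- The upper bound in Q1, up to a linear term. -/
def UB {V₁ V₂ : Type*} (H₁ : SimpleGraph V₁) (H₂ : SimpleGraph V₂) (u : V₁) (v : V₂) : Prop :=
  ∃ C : ℕ, ∀ n : ℕ, extremalNumber n (glue H₁ H₂ u v) ≤
      C * (extremalNumber n H₁ + extremalNumber n H₂ + n) + C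

lemma glueTheta_of_UB {V₁ V₂ : Type*} [Fintype V₁] [Fintype V₂] (H₁ : SimpleGraph V₁)
    (H₂ : SimpleGraph V₂) (u : V₁) (v : V₂)
    (h₃ : 2 ≤ #H₁.edgeFinset ∨ 2 ≤ #H₂.edgeFinset) (hub : UB H₁ H₂ u v) :
    GlueTheta H₁ H₂ u v := by
  obtain ⟨C, hC⟩ := hub
  constructor
  · refine Asymptotics.IsBigO.of_bound (7 * C : ℝ) ?_
    filter_upwards [Filter.eventually_ge_atTop 2] with n hn
    have h1 := hC n
    have h2 : n ≤ 3 * (extremalNumber n H₁ + extremalNumber n H₂) := by
      rcases h₃ with h | h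
      · have := linear_le H₁ h n hn
        omega
      · have := linear_le H₂ h n hn
        omega
    have h3 : extremalNumber n (glue H₁ H₂ u v) ≤
        7 * C * (extremalNumber n H₁ + extremalNumber n H₂) := by
      have h4 : 1 ≤ 3 * (extremalNumber n H₁ + extremalNumber n H₂) := by omega
      nlinarith [Nat.mul_le_mul_left C h2, Nat.mul_le_mul_left C h4]
    rw [Real.norm_of_nonneg (by positivity), Real.norm_of_nonneg (by positivity)]
    exact_mod_cast h3
  · refine Asymptotics.IsBigO.of_bound (2 : ℝ) ?_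
    filter_upwards with n
    have h1 := (glue_left (H₁ := H₁) (H₂ := H₂) (u := u) (v := v)).extremalNumber_le (n := n)
    have h2 := (glue_right (H₁ := H₁) (H₂ := H₂) (u := u) (v := v)).extremalNumber_le (n := n)
    rw [Real.norm_of_nonneg (by positivity), Real.norm_of_nonneg (by positivity)]
    have h3 : extremalNumber n H₁ + extremalNumber n H₂ ≤
      2 * extremalNumber n (glue H₁ H₂ u v) := by omega
    exact_mod_cast h3

lemma glueTheta_of_crossBound {V₁ V₂ : Type*} [Fintype V₁] [Fintype V₂] (H₁ : SimpleGraph V₁)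
    (H₂ : SimpleGraph V₂) (u : V₁) (v : V₂)
    (h₃ : 2 ≤ #H₁.edgeFinset ∨ 2 ≤ #H₂.edgeFinset) (hcb : CrossBound H₁ H₂ u v) :
    GlueTheta H₁ H₂ u v :=
  glueTheta_of_UB H₁ H₂ u v h₃ (main_bound H₁ H₂ u v hcb)

lemma crossBound_of_glueTheta {V₁ V₂ : Type*} [Fintype V₁] [Fintype V₂] (H₁ : SimpleGraph V₁)
    (H₂ : SimpleGraph V₂) (u : V₁) (v : V₂)
    (hiso : (∃ a, H₁.Adj u a) ∨ (∃ b, H₂.Adj v b)) (hth : GlueTheta H₁ H₂ u v) :
    CrossBound H₁ H₂ u v := by
  obtain ⟨c, hc⟩ := Asymptotics.isBigO_iff.1 hth.1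
  obtain ⟨N, hN⟩ := Filter.eventually_atTop.1 hc
  refine ⟨⌈|c|⌉₊ + N, fun n Γ X Y hd hb h1 h2 => ?_⟩
  by_cases hn : N ≤ n
  · have hfree : (glue H₁ H₂ u v).Free Γ := by
      rintro ⟨f⟩
      let χ : H₁.Copy Γ := f.comp ⟨⟨Sum.inl, fun h => h⟩, Sum.inl_injective⟩
      have hχ : f (Sum.inl u) ∉ Y := h1 χ
      have hφ : f (Sum.inl u) ∉ X := by
        have := h2 (f.comp (rightCopy H₁ H₂ u v))
        rw [Copy.comp_apply, rightCopy_root] at this
        exact this
      have hex : ∃ w, Γ.Adj (f (Sum.inl u)) w := by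
        rcases hiso with ⟨a, ha⟩ | ⟨b, hb'⟩
        · exact ⟨f (Sum.inl a), f.toHom.map_rel (show (glue H₁ H₂ u v).Adj _ _ from ha)⟩
        · have hbv : b ≠ v := fun h => by subst h; exact H₂.loopless.irrefl _ hb'
          exact ⟨f (Sum.inr ⟨b, hbv⟩),
            f.toHom.map_rel (show (glue H₁ H₂ u v).Adj _ _ from ⟨rfl, hb'⟩)⟩
      obtain ⟨w, hw⟩ := hex
      rcases hb _ _ hw with h | h
      · exact hφ h.1
      · exact hχ h.1
    have h3 := card_edgeFinset_le_extremalNumber hfree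
    rw [Fintype.card_fin] at h3
    have h4 := hN n hn
    rw [Real.norm_of_nonneg (by positivity), Real.norm_of_nonneg (by positivity)] at h4
    have h5 : (extremalNumber n (glue H₁ H₂ u v) : ℝ) ≤
        (⌈|c|⌉₊ : ℝ) * ((extremalNumber n H₁ : ℝ) + extremalNumber n H₂) :=
      h4.trans (mul_le_mul_of_nonneg_right ((le_abs_self c).trans (Nat.le_ceil _))
        (by positivity))
    have h6 : extremalNumber n (glue H₁ H₂ u v) ≤
        ⌈|c|⌉₊ * (extremalNumber n H₁ + extremalNumber n H₂) := by exact_mod_cast h5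
    calc #Γ.edgeFinset ≤ _ := h3
      _ ≤ _ := h6
      _ ≤ (⌈|c|⌉₊ + N) * (extremalNumber n H₁ + extremalNumber n H₂ + n) :=
        Nat.mul_le_mul (Nat.le_add_right _ _) (Nat.le_add_right _ _)
  · have h3 : pc Γ ≤ n * n := by
      refine (Finset.card_filter_le _ _).trans ?_
      simp
    rw [pc_eq] at h3
    have h4 : n * n ≤ N * n := Nat.mul_le_mul_right _ (by omega)
    calc #Γ.edgeFinset ≤ N * n := by omega
      _ ≤ (⌈|c|⌉₊ + N) * (extremalNumber n H₁ + extremalNumber n H₂ + n) :=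
        Nat.mul_le_mul (Nat.le_add_left _ _) (Nat.le_add_left _ _)

/-- Re-rooting at an isolated vertex. -/
lemma isolated_aux {V : Type*} [Fintype V] (H : SimpleGraph V) (u : V) (hu : ∀ a, ¬ H.Adj u a)
    (n : ℕ) (Γ : SimpleGraph (Fin n)) (X Y : Finset (Fin n))
    (hb : ∀ x y, Γ.Adj x y → (x ∈ X ∧ y ∈ Y) ∨ (x ∈ Y ∧ y ∈ X))
    (h1 : ∀ χ : H.Copy Γ, χ u ∉ Y) :
    #Γ.edgeFinset ≤ extremalNumber n H + Fintype.card V * n := by
  by_cases hY : Fintype.card V ≤ #Y
  · have hfree : H.Free Γ := by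
      rintro ⟨χ⟩
      have hcard : #((univ.erase u).image fun a => χ a) < #Y := by
        have e1 : #((univ.erase u).image fun a => χ a) ≤ #(univ.erase u) := Finset.card_image_le
        have e2 : #(univ.erase u) < #(univ : Finset V) :=
          Finset.card_erase_lt_of_mem (mem_univ u)
        rw [Finset.card_univ] at e2
        omega
      obtain ⟨y, hyY, hy⟩ := Finset.exists_mem_notMem_of_card_lt_card hcard
      have hy' : ∀ a, a ≠ u → χ a ≠ y := fun a ha h =>
        hy (Finset.mem_image.2 ⟨a, Finset.mem_erase.2 ⟨ha, mem_univ _⟩, h⟩)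
      let χ' : H.Copy Γ := ⟨⟨fun a => if a = u then y else χ a, by
        intro a b hab
        have ha : a ≠ u := fun h => by subst h; exact hu _ hab
        have hb : b ≠ u := fun h => by subst h; exact hu _ (H.adj_symm hab)
        simp only [if_neg ha, if_neg hb]
        exact χ.toHom.map_rel hab⟩, by
        intro a b hab
        have hab' : (if a = u then y else χ a) = (if b = u then y else χ b) := hab
        by_cases ha : a = u <;> by_cases hb : b = u
        · rw [ha, hb]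
        · rw [if_pos ha, if_neg hb] at hab'
          exact absurd hab'.symm (hy' b hb)
        · rw [if_pos hb, if_neg ha] at hab'
          exact absurd hab' (hy' a ha)
        · rw [if_neg ha, if_neg hb] at hab'
          exact χ.injective hab'⟩
      have hχ' : χ' u = y := by
        show (if u = u then y else χ u) = y
        simp
      exact h1 χ' (by rw [hχ']; exact hyY)
    have h := card_edgeFinset_le_extremalNumber hfree
    rw [Fintype.card_fin] at h
    omega
  · have h2 : pc Γ ≤ #(X ×ˢ Y ∪ Y ×ˢ X) := by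
      refine Finset.card_le_card fun p hp => ?_
      rw [Finset.mem_union, Finset.mem_product, Finset.mem_product]
      exact hb _ _ (Finset.mem_filter.1 hp).2
    have h3 := Finset.card_union_le (X ×ˢ Y) (Y ×ˢ X)
    rw [Finset.card_product, Finset.card_product] at h3
    have h4 : #X ≤ n := (Finset.card_le_univ X).trans (by simp)
    have h5 : #X * #Y ≤ Fintype.card V * n := by
      rw [mul_comm]
      exact Nat.mul_le_mul (by omega) h4
    have h6 : #Y * #X ≤ Fintype.card V * n := Nat.mul_le_mul (by omega) h4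
    rw [pc_eq] at h2
    omega

lemma crossBound_of_isolated {V₁ V₂ : Type*} [Fintype V₁] [Fintype V₂] (H₁ : SimpleGraph V₁)
    (H₂ : SimpleGraph V₂) (u : V₁) (v : V₂)
    (hiso : (∀ a, ¬ H₁.Adj u a) ∨ (∀ b, ¬ H₂.Adj v b)) : CrossBound H₁ H₂ u v := by
  refine ⟨1 + Fintype.card V₁ + Fintype.card V₂, fun n Γ X Y _ hb h1 h2 => ?_⟩
  rcases hiso with hu | hv
  · have h := isolated_aux H₁ u hu n Γ X Y hb h1
    refine h.trans ?_
    nlinarith [Nat.zero_le (Fintype.card V₁ * extremalNumber n H₁),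
      Nat.zero_le (Fintype.card V₁ * extremalNumber n H₂), Nat.zero_le (extremalNumber n H₂),
      Nat.zero_le (Fintype.card V₂ * extremalNumber n H₁),
      Nat.zero_le (Fintype.card V₂ * extremalNumber n H₂), Nat.zero_le (Fintype.card V₂ * n)]
  · have h := isolated_aux H₂ v hv n Γ Y X (fun x y hxy => (hb x y hxy).symm) h2
    refine h.trans ?_
    nlinarith [Nat.zero_le (Fintype.card V₁ * extremalNumber n H₁),
      Nat.zero_le (Fintype.card V₁ * extremalNumber n H₂), Nat.zero_le (extremalNumber n H₁),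
      Nat.zero_le (Fintype.card V₂ * extremalNumber n H₁),
      Nat.zero_le (Fintype.card V₂ * extremalNumber n H₂), Nat.zero_le (Fintype.card V₁ * n)]


/-- The copy of `H₁` in the glued graph. -/
def leftCopy {V₁ V₂ : Type*} (H₁ : SimpleGraph V₁) (H₂ : SimpleGraph V₂) (u : V₁) (v : V₂) :
    H₁.Copy (glue H₁ H₂ u v) :=
  ⟨⟨Sum.inl, fun h => h⟩, Sum.inl_injective⟩

/-- The copy of the glued graph given by two copies meeting only in the merged vertex. -/
def glueCopy {V₁ V₂ W : Type*} {H₁ : SimpleGraph V₁} {H₂ : SimpleGraph V₂} {u : V₁} {v : V₂}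
    {G : SimpleGraph W} (f : H₁.Copy G) (g : H₂.Copy G) (h : f u = g v)
    (hd : ∀ a b, f a = g b → b = v) : (glue H₁ H₂ u v).Copy G :=
  ⟨⟨Sum.elim (fun a => f a) (fun b => g b.1), by
    rintro (a | a) (b | b) hab
    · exact f.toHom.map_rel hab
    · obtain ⟨rfl, hb⟩ := hab
      simp only [Sum.elim_inl, Sum.elim_inr]
      rw [h]
      exact g.toHom.map_rel hb
    · obtain ⟨rfl, hb⟩ := hab
      simp only [Sum.elim_inl, Sum.elim_inr]
      rw [h]
      exact G.adj_symm (g.toHom.map_rel hb)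
    · exact g.toHom.map_rel hab⟩, by
    rintro (a | a) (b | b) hab
    · exact congrArg Sum.inl (f.injective hab)
    · exact absurd (hd a b.1 hab) b.2
    · exact absurd (hd b a.1 hab.symm) a.2
    · exact congrArg Sum.inr (Subtype.ext (g.injective hab))⟩

lemma rightCopy_of_ne {V₁ V₂ : Type*} {H₁ : SimpleGraph V₁} {H₂ : SimpleGraph V₂} {u : V₁}
    {v : V₂} {b : V₂} (hb : b ≠ v) : rightCopy H₁ H₂ u v b = Sum.inr ⟨b, hb⟩ := by
  show (if h : b = v then (Sum.inl u : V₁ ⊕ {y : V₂ // y ≠ v}) else Sum.inr ⟨b, h⟩) = _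
  rw [dif_neg hb]

lemma rightCopy_eq_inl {V₁ V₂ : Type*} {H₁ : SimpleGraph V₁} {H₂ : SimpleGraph V₂} {u : V₁}
    {v : V₂} {b : V₂} {x : V₁} (h : rightCopy H₁ H₂ u v b = Sum.inl x) : b = v ∧ x = u := by
  by_cases hb : b = v
  · subst hb
    rw [rightCopy_root] at h
    exact ⟨rfl, (Sum.inl_injective h).symm⟩
  · rw [rightCopy_of_ne hb] at h
    cases h

/-- Re-association of gluings, root of the last graph in the first block. -/
lemma assoc_left {V₁ V₂ V₃ : Type*} (H₁ : SimpleGraph V₁) (H : SimpleGraph V₂)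
    (S : SimpleGraph V₃) (u : V₁) (v₀ : V₂) (a : V₂) (b : V₃) :
    (glue H₁ (glue H S a b) u (Sum.inl v₀)).IsContained
      (glue (glue H₁ H u v₀) S (rightCopy H₁ H u v₀ a) b) := by
  set a' := rightCopy H₁ H u v₀ a with ha'
  let L := leftCopy (glue H₁ H u v₀) S a' b
  let i₁ : H₁.Copy (glue (glue H₁ H u v₀) S a' b) := L.comp (leftCopy H₁ H u v₀)
  let iH : H.Copy (glue (glue H₁ H u v₀) S a' b) := L.comp (rightCopy H₁ H u v₀)
  let iS : S.Copy (glue (glue H₁ H u v₀) S a' b) := rightCopy (glue H₁ H u v₀) S a' b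
  have h1 : iH a = iS b := by
    show Sum.inl (rightCopy H₁ H u v₀ a) = rightCopy (glue H₁ H u v₀) S a' b b
    rw [rightCopy_root]
  have h2 : ∀ y z, iH y = iS z → z = b := by
    intro y z h
    have h' : rightCopy (glue H₁ H u v₀) S a' b z = Sum.inl (rightCopy H₁ H u v₀ y) := h.symm
    exact (rightCopy_eq_inl h').1
  refine ⟨glueCopy i₁ (glueCopy iH iS h1 h2) ?_ ?_⟩
  · show Sum.inl (Sum.inl u) = Sum.inl (rightCopy H₁ H u v₀ v₀)
    rw [rightCopy_root]
  · rintro x (y | z) h
    · have h' : Sum.inl (Sum.inl x) = (Sum.inl (rightCopy H₁ H u v₀ y) :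
          (V₁ ⊕ {y : V₂ // y ≠ v₀}) ⊕ {z : V₃ // z ≠ b}) := h
      have h'' := (rightCopy_eq_inl (Sum.inl_injective h').symm).1
      rw [h'']
    · have h' : rightCopy (glue H₁ H u v₀) S a' b z.1 = Sum.inl (Sum.inl x) := h.symm
      exact absurd (rightCopy_eq_inl h').1 z.2

/-- Re-association of gluings, root of the last graph in the second block. -/
lemma assoc_right {V₁ V₂ V₃ : Type*} (H₁ : SimpleGraph V₁) (H : SimpleGraph V₂)
    (S : SimpleGraph V₃) (u : V₁) (a : V₂) (b : V₃) (s₀ : {z : V₃ // z ≠ b}) :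
    (glue H₁ (glue H S a b) u (Sum.inr s₀)).IsContained
      (glue (glue H₁ S u s₀.1) H (rightCopy H₁ S u s₀.1 b) a) := by
  set b' := rightCopy H₁ S u s₀.1 b with hb'
  have hbs : b ≠ s₀.1 := fun h => s₀.2 h.symm
  let L := leftCopy (glue H₁ S u s₀.1) H b' a
  let i₁ : H₁.Copy (glue (glue H₁ S u s₀.1) H b' a) := L.comp (leftCopy H₁ S u s₀.1)
  let iS : S.Copy (glue (glue H₁ S u s₀.1) H b' a) := L.comp (rightCopy H₁ S u s₀.1)
  let iH : H.Copy (glue (glue H₁ S u s₀.1) H b' a) := rightCopy (glue H₁ S u s₀.1) H b' a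
  have h1 : iH a = iS b := by
    show rightCopy (glue H₁ S u s₀.1) H b' a a = Sum.inl (rightCopy H₁ S u s₀.1 b)
    rw [rightCopy_root]
  have h2 : ∀ y z, iH y = iS z → z = b := by
    intro y z h
    have h' : rightCopy (glue H₁ S u s₀.1) H b' a y = Sum.inl (rightCopy H₁ S u s₀.1 z) := h
    exact (rightCopy H₁ S u s₀.1).injective (rightCopy_eq_inl h').2
  refine ⟨glueCopy i₁ (glueCopy iH iS h1 h2) ?_ ?_⟩
  · show Sum.inl (Sum.inl u) = Sum.inl (rightCopy H₁ S u s₀.1 s₀.1)
    rw [rightCopy_root]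
  · rintro x (y | z) h
    · have h' : rightCopy (glue H₁ S u s₀.1) H b' a y = Sum.inl (Sum.inl x) := h.symm
      have h'' := (rightCopy_eq_inl h').2
      rw [hb', rightCopy_of_ne hbs] at h''
      cases h''
    · have h' : Sum.inl (Sum.inl x) = (Sum.inl (rightCopy H₁ S u s₀.1 z.1) :
          (V₁ ⊕ {y : V₃ // y ≠ s₀.1}) ⊕ {z : V₂ // z ≠ a}) := h
      have h'' := (rightCopy_eq_inl (Sum.inl_injective h').symm).1
      rw [Subtype.ext h'']

/-- Graphs built by repeated gluing (at arbitrary vertices) from finite pieces `S` in which every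
vertex `s` can be moved an odd distance by a self-copy of `S`. -/
inductive OddBlocks : (V : Type) → SimpleGraph V → Prop
  | base (V : Type) (S : SimpleGraph V) (hfin : Finite V)
      (hS : ∀ s, ∃ σ : S.Copy S, ∃ p : S.Walk s (σ s), Odd p.length) : OddBlocks V S
  | glue (V W : Type) (H : SimpleGraph V) (S : SimpleGraph W) (a : V) (b : W)
      (hH : OddBlocks V H) (hS : OddBlocks W S) :
      OddBlocks (V ⊕ {y : W // y ≠ b}) (glue H S a b)

lemma OddBlocks.finite {V : Type} {S : SimpleGraph V} (h : OddBlocks V S) : Finite V := by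
  induction h with
  | base V S hfin _ => exact hfin
  | glue V W H S a b _ _ ihH ihS =>
    have := ihH
    have := ihS
    infer_instance

lemma exists_adj_of_odd_walk {V : Type*} {S : SimpleGraph V} {s t : V} (p : S.Walk s t)
    (hp : Odd p.length) : ∃ b, S.Adj s b := by
  cases p with
  | nil => simp at hp
  | cons h _ => exact ⟨_, h⟩

lemma UB_of_oddBlocks {V : Type} {S : SimpleGraph V} (h : OddBlocks V S) :
    ∀ (V₁ : Type) (_ : Finite V₁) (H₁ : SimpleGraph V₁) (u : V₁) (v : V), UB H₁ S u v := by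
  induction h with
  | base V S hfin hS =>
    intro V₁ hV₁ H₁ u v
    have := Fintype.ofFinite V
    have := Fintype.ofFinite V₁
    obtain ⟨σ, p, hp⟩ := hS v
    have hne : ∃ b, S.Adj v b := exists_adj_of_odd_walk p hp
    exact main_bound H₁ S u v (crossBound_of_witness (S := S) (s := v)
      ⟨⟨1, fun n => by omega⟩, hne, Or.inl ⟨Copy.id _, Walk.nil, by simp⟩,
        Or.inl ⟨σ, p, Nat.not_even_iff_odd.2 hp⟩⟩)
  | glue V W H S a b hH hS ihH ihS =>
    intro V₁ hV₁ H₁ u v
    have hfV := hH.finite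
    have hfW := hS.finite
    rcases v with v₀ | s₀
    · obtain ⟨C₁, h₁⟩ := ihH V₁ hV₁ H₁ u v₀
      obtain ⟨C₂, h₂⟩ := ihS _ (inferInstance : Finite (V₁ ⊕ {y : V // y ≠ v₀}))
        (glue H₁ H u v₀) (rightCopy H₁ H u v₀ a) b
      refine ⟨C₂ * C₁ + C₂ * C₁ + C₂ + C₂, fun n => ?_⟩
      have e1 := (assoc_left H₁ H S u v₀ a b).extremalNumber_le (n := n)
      have e2 := h₂ n
      have e3 := h₁ n
      have e4 := (glue_left (H₁ := H) (H₂ := S) (u := a) (v := b)).extremalNumber_le (n := n)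
      have e5 := (glue_right (H₁ := H) (H₂ := S) (u := a) (v := b)).extremalNumber_le (n := n)
      set E := extremalNumber n (glue H S a b)
      set E₁ := extremalNumber n H₁
      set EH := extremalNumber n H
      set ES := extremalNumber n S
      set EG := extremalNumber n (glue H₁ H u v₀)
      calc _ ≤ C₂ * (EG + ES + n) + C₂ := e1.trans e2
        _ ≤ C₂ * ((C₁ * (E₁ + E + n) + C₁) + E + n) + C₂ := by
            refine Nat.add_le_add_right (Nat.mul_le_mul_left _ ?_) _
            have : C₁ * (E₁ + EH + n) ≤ C₁ * (E₁ + E + n) :=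
              Nat.mul_le_mul_left _ (by omega)
            omega
        _ ≤ _ := by
            nlinarith [Nat.zero_le (C₂ * C₁ * E₁), Nat.zero_le (C₂ * C₁ * E),
              Nat.zero_le (C₂ * C₁ * n), Nat.zero_le (C₂ * E₁), Nat.zero_le (C₂ * E),
              Nat.zero_le (C₂ * n), Nat.zero_le (C₂ * C₁), Nat.zero_le C₂]
    · obtain ⟨C₁, h₁⟩ := ihS V₁ hV₁ H₁ u s₀.1
      obtain ⟨C₂, h₂⟩ := ihH _ (inferInstance : Finite (V₁ ⊕ {y : W // y ≠ s₀.1}))
        (glue H₁ S u s₀.1) (rightCopy H₁ S u s₀.1 b) a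
      refine ⟨C₂ * C₁ + C₂ * C₁ + C₂ + C₂, fun n => ?_⟩
      have e1 := (assoc_right H₁ H S u a b s₀).extremalNumber_le (n := n)
      have e2 := h₂ n
      have e3 := h₁ n
      have e4 := (glue_left (H₁ := H) (H₂ := S) (u := a) (v := b)).extremalNumber_le (n := n)
      have e5 := (glue_right (H₁ := H) (H₂ := S) (u := a) (v := b)).extremalNumber_le (n := n)
      set E := extremalNumber n (glue H S a b)
      set E₁ := extremalNumber n H₁
      set EH := extremalNumber n H
      set ES := extremalNumber n S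
      set EG := extremalNumber n (glue H₁ S u s₀.1)
      calc _ ≤ C₂ * (EG + EH + n) + C₂ := e1.trans e2
        _ ≤ C₂ * ((C₁ * (E₁ + E + n) + C₁) + E + n) + C₂ := by
            refine Nat.add_le_add_right (Nat.mul_le_mul_left _ ?_) _
            have : C₁ * (E₁ + ES + n) ≤ C₁ * (E₁ + E + n) :=
              Nat.mul_le_mul_left _ (by omega)
            omega
        _ ≤ _ := by
            nlinarith [Nat.zero_le (C₂ * C₁ * E₁), Nat.zero_le (C₂ * C₁ * E),
              Nat.zero_le (C₂ * C₁ * n), Nat.zero_le (C₂ * E₁), Nat.zero_le (C₂ * E),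
              Nat.zero_le (C₂ * n), Nat.zero_le (C₂ * C₁), Nat.zero_le C₂]


lemma glue_comm_le {V₁ V₂ : Type*} (H₁ : SimpleGraph V₁) (H₂ : SimpleGraph V₂) (u : V₁) (v : V₂) :
    (glue H₁ H₂ u v).IsContained (glue H₂ H₁ v u) :=
  ⟨glueCopy (rightCopy H₂ H₁ v u) (leftCopy H₂ H₁ v u) rightCopy_root
    fun _ _ h => (rightCopy_eq_inl h).2⟩

lemma glue_mono_right {V₁ V₂ V₃ : Type*} (H₁ : SimpleGraph V₁) (H₂ : SimpleGraph V₂)
    (S : SimpleGraph V₃) (u : V₁) (v : V₂) (f : H₂.Copy S) :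
    (glue H₁ H₂ u v).IsContained (glue H₁ S u (f v)) := by
  refine ⟨glueCopy (leftCopy H₁ S u (f v)) ((rightCopy H₁ S u (f v)).comp f) ?_ ?_⟩
  · rw [Copy.comp_apply, rightCopy_root]
    rfl
  · intro a b h
    have h' : rightCopy H₁ S u (f v) (f b) = Sum.inl a := h.symm
    exact f.injective (rightCopy_eq_inl h').1

/-- If `H₂` lies in a graph `S` built from odd blocks, `ex(n,S)` being of order at most
`ex(n,H₁) + ex(n,H₂) + n`, the upper bound holds. -/
lemma UB_of_contained {V₁ V₂ V : Type} [Finite V₁] {H₁ : SimpleGraph V₁} {H₂ : SimpleGraph V₂}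
    (u : V₁) (v : V₂) {S : SimpleGraph V} (hS : OddBlocks V S) (f : H₂.Copy S)
    (hc : ∃ c : ℕ, ∀ n, extremalNumber n S ≤
      c * (extremalNumber n H₁ + extremalNumber n H₂ + n)) : UB H₁ H₂ u v := by
  obtain ⟨c, hc⟩ := hc
  obtain ⟨C, hC⟩ := UB_of_oddBlocks hS V₁ inferInstance H₁ u (f v)
  refine ⟨C * c + C, fun n => ?_⟩
  have e1 := (glue_mono_right H₁ H₂ S u v f).extremalNumber_le (n := n)
  have e2 := hC n
  have e3 := hc n
  set E₁ := extremalNumber n H₁
  set E₂ := extremalNumber n H₂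
  set ES := extremalNumber n S
  calc _ ≤ C * (E₁ + ES + n) + C := e1.trans e2
    _ ≤ C * (E₁ + c * (E₁ + E₂ + n) + n) + C := by
        refine Nat.add_le_add_right (Nat.mul_le_mul_left _ ?_) _
        omega
    _ ≤ _ := by
        nlinarith [Nat.zero_le (C * E₂), Nat.zero_le (C * c)]

lemma UB_symm {V₁ V₂ : Type*} {H₁ : SimpleGraph V₁} {H₂ : SimpleGraph V₂} {u : V₁} {v : V₂}
    (h : UB H₂ H₁ v u) : UB H₁ H₂ u v := by
  obtain ⟨C, hC⟩ := h
  refine ⟨C, fun n => ?_⟩
  have e1 := (glue_comm_le H₁ H₂ u v).extremalNumber_le (n := n)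
  have e2 := hC n
  rw [show extremalNumber n H₁ + extremalNumber n H₂ + n =
    extremalNumber n H₂ + extremalNumber n H₁ + n by ring]
  exact e1.trans e2

theorem result {V₁ V₂ : Type} [Fintype V₁] [Fintype V₂] (H₁ : SimpleGraph V₁)
    (H₂ : SimpleGraph V₂) (u : V₁) (v : V₂) (h₃ : 3 ≤ #H₁.edgeFinset + #H₂.edgeFinset) :
    -- (1) the gluing statement for this pair is equivalent to the crossing bound for this pair
    (GlueTheta H₁ H₂ u v ↔ CrossBound H₁ H₂ u v) ∧
    -- (2) a witness graph settles it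
    (∀ (V : Type) (S : SimpleGraph V) (s : V), Witness H₁ H₂ u v S s → GlueTheta H₁ H₂ u v) ∧
    -- (3) one factor is built from odd blocks, the other factor is arbitrary
    (OddBlocks V₂ H₂ ∨ OddBlocks V₁ H₁ → GlueTheta H₁ H₂ u v) ∧
    -- (4) one factor lies in a graph of the same order of Turán number built from odd blocks
    (∀ (V : Type) (S : SimpleGraph V), OddBlocks V S → H₁.IsContained S ∨ H₂.IsContained S →
      (∃ c : ℕ, ∀ n, extremalNumber n S ≤
        c * (extremalNumber n H₁ + extremalNumber n H₂ + n)) → GlueTheta H₁ H₂ u v) ∧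
    -- (5) one factor has a self-copy moving its root an odd distance
    ((∃ σ : H₂.Copy H₂, ∃ p : H₂.Walk v (σ v), Odd p.length) → GlueTheta H₁ H₂ u v) ∧
    ((∃ σ : H₁.Copy H₁, ∃ p : H₁.Walk u (σ u), Odd p.length) → GlueTheta H₁ H₂ u v) ∧
    -- (6) one factor embeds in the other with its root at even distance from the other root
    ((∃ χ : H₁.Copy H₂, ∃ p : H₂.Walk v (χ u), Even p.length) → GlueTheta H₁ H₂ u v) ∧
    ((∃ φ : H₂.Copy H₁, ∃ p : H₁.Walk u (φ v), Even p.length) → GlueTheta H₁ H₂ u v) := by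
  have h23 : 2 ≤ #H₁.edgeFinset ∨ 2 ≤ #H₂.edgeFinset := by omega
  have hT := glueTheta_of_crossBound H₁ H₂ u v h23
  have hU := glueTheta_of_UB H₁ H₂ u v h23
  have hW : ∀ (V : Type) (S : SimpleGraph V) (s : V), Witness H₁ H₂ u v S s →
      GlueTheta H₁ H₂ u v := fun V S s h => hT (crossBound_of_witness h)
  have c1 : ∃ c : ℕ, ∀ n, extremalNumber n H₁ ≤
      c * (extremalNumber n H₁ + extremalNumber n H₂ + n) := ⟨1, fun n => by omega⟩
  have c2 : ∃ c : ℕ, ∀ n, extremalNumber n H₂ ≤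
      c * (extremalNumber n H₁ + extremalNumber n H₂ + n) := ⟨1, fun n => by omega⟩
  have c3 : ∀ (V : Type) (S : SimpleGraph V), OddBlocks V S →
      H₁.IsContained S ∨ H₂.IsContained S →
      (∃ c : ℕ, ∀ n, extremalNumber n S ≤
        c * (extremalNumber n H₁ + extremalNumber n H₂ + n)) → GlueTheta H₁ H₂ u v := by
    intro V S hS hcon hc
    rcases hcon with hcon | hcon
    · obtain ⟨f⟩ := hcon
      refine hU (UB_symm (UB_of_contained v u hS f ?_))
      obtain ⟨c, hc⟩ := hc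
      refine ⟨c, fun n => ?_⟩
      rw [show extremalNumber n H₂ + extremalNumber n H₁ + n =
        extremalNumber n H₁ + extremalNumber n H₂ + n by ring]
      exact hc n
    · obtain ⟨f⟩ := hcon
      exact hU (UB_of_contained u v hS f hc)
  have c4 : OddBlocks V₂ H₂ ∨ OddBlocks V₁ H₁ → GlueTheta H₁ H₂ u v := by
    rintro (h | h)
    · exact c3 V₂ H₂ h (Or.inr (IsContained.refl _)) c2
    · exact c3 V₁ H₁ h (Or.inl (IsContained.refl _)) c1
  by_cases hiso : (∃ a, H₁.Adj u a) ∧ (∃ b, H₂.Adj v b)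
  · obtain ⟨hu, hv⟩ := hiso
    refine ⟨⟨crossBound_of_glueTheta H₁ H₂ u v (Or.inl hu), hT⟩, hW, c4, c3, ?_, ?_, ?_, ?_⟩
    · rintro ⟨σ, p, hp⟩
      exact hW V₂ H₂ v ⟨c2, hv, Or.inl ⟨Copy.id _, Walk.nil, by simp⟩,
        Or.inl ⟨σ, p, Nat.not_even_iff_odd.2 hp⟩⟩
    · rintro ⟨σ, p, hp⟩
      exact hW V₁ H₁ u ⟨c1, hu, Or.inr ⟨σ, p, Nat.not_even_iff_odd.2 hp⟩,
        Or.inr ⟨Copy.id _, Walk.nil, by simp⟩⟩
    · rintro ⟨χ, p, hp⟩
      exact hW V₂ H₂ v ⟨c2, hv, Or.inl ⟨Copy.id _, Walk.nil, by simp⟩, Or.inr ⟨χ, p, hp⟩⟩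
    · rintro ⟨φ, p, hp⟩
      exact hW V₁ H₁ u ⟨c1, hu, Or.inl ⟨φ, p, hp⟩, Or.inr ⟨Copy.id _, Walk.nil, by simp⟩⟩
  · have hcb : CrossBound H₁ H₂ u v := by
      refine crossBound_of_isolated H₁ H₂ u v ?_
      by_contra h
      apply hiso
      push Not at h
      exact h
    have hth := hT hcb
    exact ⟨⟨fun _ => hcb, fun _ => hth⟩, hW, c4, c3, fun _ => hth, fun _ => hth,
      fun _ => hth, fun _ => hth⟩

end Pool.Agent.Results.MP_8df7ba_co.GluedFactor
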